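import Pool.Agent.H845.Voj2.Twist

/-!
# Quadratic twists without small rational points

Let `C` be the hyperelliptic curve `y² = f(x)` over `ℚ`, `f = c ∏_{i < m} (x - e_i) h(x)`, where
`c ≠ 0`, the `e_i` are distinct rational numbers and `h ∈ ℤ[x]` with `h(e_i) ≠ 0`; let `r ≥ 2` be the
number of the rational Weierstrass points `e_i`, together with the point at infinity if `deg f` is odd.
For squarefree `d` let `C_d` be the twist `d y² = f(x)`, of the same genus.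
-/

set_option autoImplicit false

namespace Pool.Agent.Results.MP_10e784_ag.SmallPointsOnTwists

open Polynomial

/-- The height `H(x) = max(|a|, b)` of the rational number `x = a / b` (in lowest terms, `b > 0`). -/
def height (x : ℚ) : ℕ := max x.num.natAbs x.den

/-- The value `f(x) = c ∏ (x - e_i) h(x)`. -/
noncomputable def value {m : ℕ} (c : ℚ) (e : Fin m → ℚ) (h : ℤ[X]) (x : ℚ) : ℚ :=
  c * (∏ i, (x - e i)) * aeval x h

/-- **Twists without small points.**  The number of squarefree integers `d` with `|d| ≤ D` such that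
the twist `d y² = f(x)` has a rational point `(x, y)` with `y ≠ 0` and `H(x) ≤ B` is at most
`M B D^{1/r} (1 + log D)`, for all `B, D ≥ 1` (and this set is finite). -/
theorem result {m : ℕ} (c : ℚ) (hc : c ≠ 0) (e : Fin m → ℚ) (he : Function.Injective e)
    (h : ℤ[X]) (hh : h ≠ 0) (hroot : ∀ i, aeval (e i) h ≠ 0) (r : ℕ)
    (hr : (Even (m + h.natDegree) ∧ r = m) ∨ (Odd (m + h.natDegree) ∧ r = m + 1))
    (hr2 : 2 ≤ r) :
    ∃ M : ℝ, ∀ B D : ℕ, 1 ≤ B → 1 ≤ D →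
      {d : ℤ | Squarefree d ∧ d.natAbs ≤ D ∧
        ∃ x y : ℚ, y ≠ 0 ∧ height x ≤ B ∧ (d : ℚ) * y ^ 2 = value c e h x}.Finite ∧
      ({d : ℤ | Squarefree d ∧ d.natAbs ≤ D ∧
        ∃ x y : ℚ, y ≠ 0 ∧ height x ≤ B ∧ (d : ℚ) * y ^ 2 = value c e h x}.ncard : ℝ) ≤
      M * B * (D : ℝ) ^ (1 / (r : ℝ)) * (1 + Real.log D) := by
  classical
  have hR0 := Pool.Agent.H845.Voj2.RC_ne c e h hc hh hroot
  obtain ⟨M, hM⟩ : ∃ C : ℝ, ∀ B D : ℕ, 1 ≤ B → 1 ≤ D → ∀ E : Finset ℚ,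
      (∀ x ∈ E, Pool.Agent.H845.Voj.hgt x ≤ B ∧ Pool.Agent.H845.Voj2.ff c e h x ≠ 0 ∧
        ∃ (d : ℤ) (y : ℚ), Squarefree d ∧ d.natAbs ≤ D ∧
          (d : ℚ) * y ^ 2 = Pool.Agent.H845.Voj2.ff c e h x) →
      (E.card : ℝ) ≤ C * B * (D : ℝ) ^ (1 / (r : ℝ)) * (1 + Real.log D) := by
    rcases hr with ⟨hE, hrm⟩ | ⟨hO, hrm⟩
    · obtain ⟨l, hl⟩ := hE
      exact Pool.Agent.H845.Voj2.main_t r hr2 (by rw [Fintype.card_fin]; exact hrm.symm) hR0
        (Pool.Agent.H845.Voj2.detE e he) _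
        (Pool.Agent.H845.Voj2.good_even c e h l (by omega))
    · obtain ⟨l, hl⟩ := hO
      exact Pool.Agent.H845.Voj2.main_t r hr2
        (by rw [Fintype.card_option, Fintype.card_fin]; exact hrm.symm) hR0
        (Pool.Agent.H845.Voj2.detO e he) _
        (Pool.Agent.H845.Voj2.good_odd c e h l (by omega))
  refine ⟨M, fun B D hB hD => ?_⟩
  set S : Set ℤ := {d : ℤ | Squarefree d ∧ d.natAbs ≤ D ∧
        ∃ x y : ℚ, y ≠ 0 ∧ height x ≤ B ∧ (d : ℚ) * y ^ 2 = value c e h x} with hS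
  have hfin : S.Finite := by
    apply (Set.finite_Icc (-(D : ℤ)) D).subset
    intro d hd
    have h1 : d.natAbs ≤ D := hd.2.1
    rw [Set.mem_Icc]
    constructor <;> omega
  refine ⟨hfin, ?_⟩
  rw [Set.ncard_eq_toFinset_card _ hfin]
  have hmem : ∀ d ∈ hfin.toFinset, Squarefree d ∧ d.natAbs ≤ D ∧
        ∃ x y : ℚ, y ≠ 0 ∧ height x ≤ B ∧ (d : ℚ) * y ^ 2 = value c e h x := fun d hd =>
    hfin.mem_toFinset.1 hd
  choose! X hX using fun d (hd : d ∈ hfin.toFinset) => (hmem d hd).2.2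
  have hinj : Set.InjOn X (hfin.toFinset : Set ℤ) := by
    intro d hd d' hd' hdd
    obtain ⟨y, hy, _, h1⟩ := hX d hd
    obtain ⟨y', hy', _, h2⟩ := hX d' hd'
    rw [← hdd, ← h1] at h2
    have h3 := Pool.Agent.H845.Voj2.sf_unique (hmem d hd).1 (hmem d' hd').1 y y' hy
      (by rw [mul_comm, ← h2, mul_comm])
    have hy2 : 0 < y ^ 2 := by positivity
    have hy2' : 0 < y' ^ 2 := by positivity
    rcases Int.natAbs_eq_natAbs_iff.1 h3 with h4 | h4
    · exact h4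
    · exfalso
      rw [h4] at h2
      push_cast at h2
      have h5 : (d' : ℚ) * (y' ^ 2 + y ^ 2) = 0 := by linear_combination h2
      rcases mul_eq_zero.1 h5 with h6 | h6
      · exact (hmem d' hd').1.ne_zero (by exact_mod_cast h6)
      · linarith
  rw [← Finset.card_image_of_injOn hinj]
  apply hM B D hB hD
  intro x hx
  obtain ⟨d, hd, rfl⟩ := Finset.mem_image.1 hx
  obtain ⟨y, hy, h0, h1⟩ := hX d hd
  obtain ⟨h2, h3, _⟩ := hmem d hd
  have h4 : Pool.Agent.H845.Voj2.ff c e h (X d) = (d : ℚ) * y ^ 2 := h1.symm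
  refine ⟨h0, ?_, d, y, h2, h3, h1⟩
  rw [h4]
  exact mul_ne_zero (by exact_mod_cast h2.ne_zero) (pow_ne_zero _ hy)

end Pool.Agent.Results.MP_10e784_ag.SmallPointsOnTwists
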